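import Pool.Agent.Z700.Defs3
import Pool.Agent.Z434.C1A

/-! # Z701 C1A: forms and cusps as factorizations, general family -/

set_option autoImplicit false

namespace Pool.Agent.Z270.C1A

open Finset Pool.Agent.Z700
open Pool.Agent.Z701 (Sp Nr spl inr Gd)
open Pool.Agent.Z434.C1A (SS SS_fin G Fp_eq G_flip Om Cd fw Fc facts)

/-- the conditions on `m` -/
structure Gm (m : ℕ) : Prop where
  h8 : m % 8 = 1
  hm3 : m % 3 ≠ 0
  h7 : m % 7 = 1 ∨ m % 7 = 2 ∨ m % 7 = 4

theorem Gm.pos {m : ℕ} (h : Gm m) : 0 < m := by have := h.h8; omega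

theorem fwd_mem {m : ℕ} (g : Gm m) {x : ℤ} {T a a' X Y : ℕ} {c c' : ℤ}
    (f : Fc m x T a a' X Y c c') :
    ((a : ℤ) * a', a * c' + a' * c, c * c') ∈ SS x m ∧ (a * c' + a' * c) % 28 = 17 := by
  have hB : (28 : ℤ) ∣ ((a * c' + a' * c) - 17) * m := by
    have e1 : (a * c' + a' * c) * (m : ℤ) = 3 * m - 2 * T - 2 * (a * a') * x := by
      have := f.hT
      have h4 : (T : ℤ) = a' * X := by exact_mod_cast this
      linear_combination -a * f.hc' - a' * f.hc + f.h3 + 2 * h4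
    obtain ⟨k, hk⟩ := f.ha
    obtain ⟨l, hl⟩ := f.ha'
    obtain ⟨j, hj⟩ : (7 : ℕ) ∣ T := by rw [f.hT, hl]; exact ⟨l * X, by ring⟩
    obtain ⟨i, hi⟩ := f.To
    have hm2 : m % 2 = 1 := by have := g.h8; omega
    obtain ⟨m', hm'⟩ : ∃ m', m = 2 * m' + 1 := ⟨m / 2, by omega⟩
    have hj2 : j % 2 = 1 := by omega
    obtain ⟨j', hj'⟩ : ∃ j', j = 2 * j' + 1 := ⟨j / 2, by omega⟩
    refine ⟨-(m' : ℤ) - j' - 1 - k * l * x, ?_⟩
    have e2 : (T : ℤ) = 7 * (2 * j' + 1) := by rw [hj, hj']; push_cast; ring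
    have e3 : (a : ℤ) = 2 * k := by rw [hk]; push_cast; ring
    have e4 : (a' : ℤ) = 7 * l := by rw [hl]; push_cast; ring
    have e5 : (m : ℤ) = 2 * m' + 1 := by rw [hm']; push_cast; ring
    rw [sub_mul, e1, e2]
    rw [show 2 * ((a : ℤ) * a') * x = 28 * (k * l * x) by rw [e3, e4]; ring]
    rw [e5]
    ring
  have hco : IsCoprime (28 : ℤ) m := by
    rw [show (28 : ℤ) = ((28 : ℕ) : ℤ) by norm_num, Nat.isCoprime_iff_coprime]
    have h1 := g.h8
    have h2 := g.h7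
    rw [show 28 = 2 ^ 2 * 7 by norm_num]
    refine Nat.Coprime.mul_left ?_ ?_
    · refine Nat.Coprime.pow_left 2 ?_
      refine (Nat.Prime.coprime_iff_not_dvd Nat.prime_two).2 ?_
      omega
    · refine (Nat.Prime.coprime_iff_not_dvd (by norm_num)).2 ?_
      omega
  have hB2 : (28 : ℤ) ∣ (a * c' + a' * c) - 17 := hco.dvd_of_dvd_mul_right hB
  have hB3 : (a * c' + a' * c) % 28 = 17 := by omega
  refine ⟨⟨⟨?_, ?_, Or.inr hB3⟩, ?_, ?_⟩, hB3⟩
  · simp only
    linear_combination (a * c' - a' * c + 3) * f.dt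
  · simp only
    obtain ⟨k, hk⟩ := f.ha
    obtain ⟨l, hl⟩ := f.ha'
    exact ⟨k * l, by rw [hk, hl]; push_cast; ring⟩
  · simp only
    exact mul_pos (by exact_mod_cast f.pa) (by exact_mod_cast f.pa')
  · simp only
    have h1 : (a : ℤ) * a' * x ^ 2 + (a * c' + a' * c) * x * m + c * c' * m ^ 2 = -(X * Y) := by
      linear_combination (-(a' : ℤ) * x - m * c') * f.hc + (X : ℤ) * f.hc'
    rw [h1]
    have : (0 : ℤ) < X * Y := mul_pos (by exact_mod_cast f.pX) (by exact_mod_cast f.pY)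
    linarith

theorem chi3_zero {n : ℤ} (h : (3 : ℤ) ∣ n) : chi3 n = 0 := by
  unfold chi3
  rw [if_neg (by omega), if_neg (by omega)]

theorem chi3_ne {n : ℤ} (h : ¬ (3 : ℤ) ∣ n) : chi3 n ≠ 0 := by
  unfold chi3
  split_ifs <;> omega

theorem chi3_neg {n : ℤ} : chi3 (-n) = -chi3 n := by
  unfold chi3
  split_ifs <;> omega

theorem chi3_congr {n k : ℤ} (h : (3 : ℤ) ∣ n - k) : chi3 n = chi3 k := by
  unfold chi3
  have : n % 3 = k % 3 := by omega
  rw [this]

theorem prim {m : ℕ} {x : ℤ} {T a a' X Y : ℕ} {c c' : ℤ}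
    (f : Fc m x T a a' X Y c c') (h0 : ps3 a a' Y X ≠ 0) :
    IsCoprime (a : ℤ) c ∧ IsCoprime (a' : ℤ) c' := by
  have key1 : ¬ ((3 : ℤ) ∣ a ∧ (3 : ℤ) ∣ c) := by
    rintro ⟨h1, h2⟩
    apply h0
    unfold ps3
    have h1' : 3 ∣ a := by exact_mod_cast h1
    by_cases h3 : 3 ∣ a'
    · rw [if_pos ⟨h1', h3⟩, neg_eq_zero]
      apply chi3_zero
      have h4 : (3 : ℤ) ∣ X := by
        have : (X : ℤ) = -(m * c) - a * x := by linear_combination -f.hc
        rw [this]
        exact dvd_sub (dvd_neg.2 (Dvd.dvd.mul_left h2 _)) (Dvd.dvd.mul_right h1 _)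
      push_cast
      exact Dvd.dvd.mul_right h4 _
    · rw [if_neg (fun h => h3 h.2)]
      apply chi3_zero
      push_cast
      exact Dvd.dvd.mul_right h1 _
  have key2 : ¬ ((3 : ℤ) ∣ a' ∧ (3 : ℤ) ∣ c') := by
    rintro ⟨h1, h2⟩
    apply h0
    unfold ps3
    have h1' : 3 ∣ a' := by exact_mod_cast h1
    by_cases h3 : 3 ∣ a
    · rw [if_pos ⟨h3, h1'⟩, neg_eq_zero]
      apply chi3_zero
      have h4 : (3 : ℤ) ∣ Y := by
        have : (Y : ℤ) = m * c' + a' * x := by linear_combination f.hc'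
        rw [this]
        exact dvd_add (Dvd.dvd.mul_left h2 _) (Dvd.dvd.mul_right h1 _)
      push_cast
      exact Dvd.dvd.mul_left h4 _
    · rw [if_neg (fun h => h3 h.1)]
      apply chi3_zero
      push_cast
      exact Dvd.dvd.mul_left h1 _
  have gen : ∀ r s : ℤ, (∃ t w : ℤ, r * t + s * w = 3) → ¬ ((3 : ℤ) ∣ r ∧ (3 : ℤ) ∣ s) →
      IsCoprime r s := by
    rintro r s ⟨t, w, h⟩ hn
    rw [Int.isCoprime_iff_gcd_eq_one]
    have h1 : ((Int.gcd r s : ℕ) : ℤ) ∣ 3 := by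
      rw [← h]
      exact dvd_add (Dvd.dvd.mul_right (Int.gcd_dvd_left ..) _)
        (Dvd.dvd.mul_right (Int.gcd_dvd_right ..) _)
    have h2 : Int.gcd r s ∣ 3 := by exact_mod_cast h1
    rcases (Nat.dvd_prime Nat.prime_three).1 h2 with h3 | h3
    · exact h3
    · exfalso
      apply hn
      have h4 := Int.gcd_dvd_left r s
      have h5 := Int.gcd_dvd_right r s
      rw [h3] at h4 h5
      exact ⟨by exact_mod_cast h4, by exact_mod_cast h5⟩
  refine ⟨gen _ _ ⟨c', -a', by linear_combination f.dt⟩ key1,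
    gen _ _ ⟨-c, a, by linear_combination f.dt⟩ key2⟩

theorem fwd_val {m : ℕ} (g : Gm m) {x : ℤ} {T a a' X Y : ℕ} {c c' : ℤ}
    (f : Fc m x T a a' X Y c c') (h0 : ps3 a a' Y X ≠ 0) :
    ps3 a a' Y X = cQ ((a : ℤ) * a', a * c' + a' * c, c * c') := by
  unfold ps3 cQ
  unfold ps3 at h0
  simp only
  by_cases h : 3 ∣ a ∧ 3 ∣ a'
  · rw [if_pos h]
    obtain ⟨⟨k, hk⟩, ⟨l, hl⟩⟩ := h
    rw [if_pos (by rw [hk]; push_cast; rw [mul_assoc]; exact Int.mul_emod_right _ _)]
    rw [← chi3_neg]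
    apply chi3_congr
    have hm3 := g.hm3
    obtain ⟨n, hn⟩ : ∃ n : ℤ, (m : ℤ) ^ 2 = 3 * n + 1 := by
      rcases (by omega : m % 3 = 1 ∨ m % 3 = 2) with h | h
      · obtain ⟨n, hn⟩ : ∃ n, m = 3 * n + 1 := ⟨m / 3, by omega⟩
        exact ⟨3 * n ^ 2 + 2 * n, by rw [hn]; push_cast; ring⟩
      · obtain ⟨n, hn⟩ : ∃ n, m = 3 * n + 2 := ⟨m / 3, by omega⟩
        exact ⟨3 * n ^ 2 + 4 * n + 1, by rw [hn]; push_cast; ring⟩
    have e1 : (X : ℤ) = -(m * c) - a * x := by linear_combination -f.hc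
    have e2 : (Y : ℤ) = m * c' + a' * x := by linear_combination f.hc'
    push_cast
    rw [e1, e2, hk, hl]
    push_cast
    refine ⟨n * c * c' + m * c * l * x + k * x * (m * c' + 3 * l * x), ?_⟩
    linear_combination (c * c') * hn
  · rw [if_neg h] at h0 ⊢
    have h1 : ¬ (3 : ℤ) ∣ (a * a' : ℕ) := fun h => h0 (chi3_zero h)
    push_cast at h1
    rw [if_neg (by omega)]
    push_cast
    rfl

theorem inj_aux {m : ℕ} {x : ℤ} {T a a' X Y : ℕ} {c c' : ℤ}
    (f : Fc m x T a a' X Y c c') (h0 : ps3 a a' Y X ≠ 0) :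
    (a' : ℤ) = Int.gcd ((a : ℤ) * a') (a' * c) := by
  rw [mul_comm (a : ℤ) a', Int.gcd_mul_left]
  rw [Int.isCoprime_iff_gcd_eq_one.1 (prim f h0).1]
  simp

theorem inj {m : ℕ} {x : ℤ} {T a a' X Y : ℕ} {c c' : ℤ}
    (f : Fc m x T a a' X Y c c') (h0 : ps3 a a' Y X ≠ 0)
    {T1 a1 a1' X1 Y1 : ℕ} {c1 c1' : ℤ}
    (f1 : Fc m x T1 a1 a1' X1 Y1 c1 c1') (h01 : ps3 a1 a1' Y1 X1 ≠ 0)
    (e : ((a : ℤ) * a', a * c' + a' * c, c * c') =
      (((a1 : ℤ) * a1', a1 * c1' + a1' * c1, c1 * c1') : ℤ × ℤ × ℤ)) : T = T1 ∧ a = a1 ∧ a' = a1' := by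
  simp only [Prod.mk.injEq] at e
  obtain ⟨e1, e2, e3⟩ := e
  have e4 : (a' : ℤ) * c = a1' * c1 := by linarith [f.dt, f1.dt]
  have k1 := inj_aux f h0
  have k2 := inj_aux f1 h01
  rw [e1, e4, ← k2] at k1
  have k3 : a' = a1' := by exact_mod_cast k1
  subst k3
  have p := f.pa'
  have k4 : (a : ℤ) = a1 := mul_right_cancel₀ (by exact_mod_cast p.ne') e1
  have k5 : a = a1 := by exact_mod_cast k4
  subst k5
  refine ⟨?_, rfl, rfl⟩
  have p' : (a' : ℤ) ≠ 0 := by exact_mod_cast p.ne'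
  have k6 : c = c1 := mul_left_cancel₀ p' e4
  subst k6
  have k7 : X = X1 := by
    have h1 := f.hc
    have h2 := f1.hc
    have : (X : ℤ) = X1 := by linarith
    exact_mod_cast this
  rw [f.hT, f1.hT, k7]

theorem surj {m : ℕ} (g : Gm m) {x : ℤ} {q : ℤ × ℤ × ℤ} (hq : q ∈ SS x m) (h17 : q.2.1 % 28 = 17)
    (h0 : cQ q ≠ 0) : ∃ w ∈ Om m, Cd m x w ∧
      ps3 w.2.1 w.2.2 ((3 * m - w.1) / w.2.1) (w.1 / w.2.2) ≠ 0 ∧ fw m x w = q := by
  obtain ⟨A, B, C⟩ := q
  obtain ⟨⟨hd, h14, _⟩, hA, hN⟩ := hq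
  simp only at hd h14 hA hN h17
  obtain ⟨γ, hγ⟩ : ∃ γ, B = 2 * γ + 3 := ⟨(B - 3) / 2, by omega⟩
  subst hγ
  have hAC : A * C = γ * (γ + 3) := by linarith
  have hm := g.pos
  have h24 := g.h8
  have hm3 := g.hm3
  -- the gcd
  obtain ⟨a', ha'⟩ : ∃ a' : ℕ, a' = Int.gcd A γ := ⟨_, rfl⟩
  have hd1 : (a' : ℤ) ∣ A := by rw [ha']; exact Int.gcd_dvd_left ..
  have hd2 : (a' : ℤ) ∣ γ := by rw [ha']; exact Int.gcd_dvd_right ..
  have hd7 : (7 : ℤ) ∣ a' := by
    rw [ha']
    refine Int.dvd_coe_gcd (by omega) (by omega)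
  obtain ⟨a, ha⟩ := hd1
  obtain ⟨c, hc⟩ := hd2
  have pa' : (0 : ℤ) < a' := by
    rcases Nat.eq_zero_or_pos a' with h | h
    · rw [h] at ha; simp at ha; omega
    · exact_mod_cast h
  have pa : 0 < a := by
    rw [ha] at hA
    exact (mul_pos_iff_of_pos_left pa').1 hA
  have hcop : IsCoprime a c := by
    rw [Int.isCoprime_iff_gcd_eq_one]
    have h1 : a' = a' * Int.gcd a c := by
      conv_lhs => rw [ha', ha, hc, Int.gcd_mul_left]
      simp
    have h2 : 0 < a' := by exact_mod_cast pa'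
    exact (Nat.eq_of_mul_eq_mul_left h2 (by rw [← h1, mul_one])).symm
  have h1 : a * C = c * (γ + 3) := by
    apply mul_left_cancel₀ pa'.ne'
    rw [← mul_assoc, ← ha, hAC, ← mul_assoc, ← hc]
  have h2 : a ∣ γ + 3 := by
    have : a ∣ c * (γ + 3) := ⟨C, h1.symm⟩
    exact hcop.dvd_of_dvd_mul_left this
  obtain ⟨c', hc'⟩ := h2
  have hC : C = c * c' := by
    apply mul_left_cancel₀ pa.ne'
    rw [h1, hc']
    ring
  have dt : a * c' - a' * c = 3 := by rw [← hc', ← hc]; ring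
  lift a to ℕ using pa.le with a hae
  -- X and Y
  obtain ⟨X, hX⟩ : ∃ X : ℤ, X = -(a * x + c * m) := ⟨_, rfl⟩
  obtain ⟨Y, hY⟩ : ∃ Y : ℤ, Y = a' * x + c' * m := ⟨_, rfl⟩
  have hXY : 0 < X * Y := by
    have : X * Y = -(A * x ^ 2 + (2 * γ + 3) * x * m + C * m ^ 2) := by
      rw [hX, hY, hC, ha]
      linear_combination (x * m) * hc + (x * m) * hc'
    rw [this]
    linarith
  have h3 : (a : ℤ) * Y + a' * X = 3 * m := by
    rw [hX, hY]
    linear_combination (m : ℤ) * dt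
  have hpos : 0 < X ∧ 0 < Y := by
    rcases pos_and_pos_or_neg_and_neg_of_mul_pos hXY with h | h
    · exact h
    · exfalso
      have e1 : (a : ℤ) * Y < 0 := mul_neg_of_pos_of_neg pa h.2
      have e2 : (a' : ℤ) * X < 0 := mul_neg_of_pos_of_neg pa' h.1
      have e3 : (0 : ℤ) < m := by exact_mod_cast hm
      linarith
  obtain ⟨pX, pY⟩ := hpos
  lift X to ℕ using pX.le with X hXe
  lift Y to ℕ using pY.le with Y hYe
  have h3' : a * Y + a' * X = 3 * m := by exact_mod_cast h3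
  have na : 0 < a := by exact_mod_cast pa
  have na' : 0 < a' := by exact_mod_cast pa'
  have nX : 0 < X := by exact_mod_cast pX
  have nY : 0 < Y := by exact_mod_cast pY
  have hγ : γ % 14 = 7 := by omega
  -- parity
  have oc : c % 2 = 1 := by
    rcases Int.even_or_odd c with h | h
    · exfalso
      obtain ⟨k, hk⟩ := h
      rw [hk] at hc
      have : γ = 2 * (a' * k) := by rw [hc]; ring
      omega
    · exact Int.odd_iff.1 h
  have oa' : a' % 2 = 1 := by
    rcases Nat.even_or_odd a' with h | h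
    · exfalso
      obtain ⟨k, hk⟩ := h
      rw [hk] at hc
      have : γ = 2 * (k * c) := by rw [hc]; push_cast; ring
      omega
    · exact Nat.odd_iff.1 h
  have ea : 2 ∣ a := by
    have h5 : (2 : ℤ) ∣ a' * a := by rw [← ha]; omega
    have h6 : 2 ∣ a' * a := by exact_mod_cast h5
    rcases (Nat.Prime.dvd_mul Nat.prime_two).1 h6 with h | h
    · omega
    · exact h
  have oX : X % 2 = 1 := by
    obtain ⟨k, hk⟩ := ea
    obtain ⟨c0, hc0⟩ : ∃ c0, c = 2 * c0 + 1 := ⟨c / 2, by omega⟩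
    obtain ⟨m0, hm0⟩ : ∃ m0, m = 2 * m0 + 1 := ⟨m / 2, by omega⟩
    have : (X : ℤ) = -(2 * (k * x + 2 * c0 * m0 + c0 + m0) + 1) := by
      rw [hX, hk, hc0, hm0]; push_cast; ring
    omega
  have oT : Odd (a' * X) := Nat.odd_mul.2 ⟨Nat.odd_iff.2 oa', Nat.odd_iff.2 oX⟩
  have d7 : 7 ∣ a' := by exact_mod_cast hd7
  have eS : 3 * m - a' * X = a * Y := by omega
  have e1 : (3 * m - a' * X) / a = Y := by rw [eS]; exact Nat.mul_div_cancel_left _ na
  have e2 : a' * X / a' = X := Nat.mul_div_cancel_left _ na'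
  have e3 : -(X : ℤ) - a * x = m * c := by rw [hX]; ring
  have e4 : (Y : ℤ) - a' * x = m * c' := by rw [hY]; ring
  have hm' : (m : ℤ) ≠ 0 := by exact_mod_cast hm.ne'
  have pXa : 0 < a' * X := Nat.mul_pos na' nX
  have pYa : 0 < a * Y := Nat.mul_pos na nY
  refine ⟨⟨a' * X, (a, a')⟩, ?_, ?_, ?_, ?_⟩
  · unfold Om
    simp only [Finset.mem_sigma, Finset.mem_filter, Finset.mem_range, Finset.mem_product,
      Nat.mem_divisors]
    rw [eS]
    refine ⟨⟨by omega, oT, Dvd.dvd.mul_right d7 _⟩, ⟨⟨Dvd.intro _ rfl, by omega⟩, ea⟩,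
      ⟨Dvd.intro _ rfl, by omega⟩, d7⟩
  · unfold Cd
    simp only
    rw [e1, e2]
    exact ⟨⟨-c, by linear_combination -e3⟩, ⟨-c', by linear_combination -e4⟩⟩
  · simp only
    rw [e1, e2]
    unfold cQ at h0
    simp only at h0
    unfold ps3
    by_cases h5 : A % 3 = 0
    · rw [if_pos h5] at h0
      have h6 : ¬ (3 : ℤ) ∣ C := fun h => h0 (chi3_zero h)
      rw [hC] at h6
      have n1 : ¬ (3 : ℤ) ∣ c := fun h => h6 (Dvd.dvd.mul_right h _)
      have n2 : ¬ (3 : ℤ) ∣ c' := fun h => h6 (Dvd.dvd.mul_left h _)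
      have h7 : (3 : ℤ) ∣ γ * (γ + 3) := by
        rw [← hAC]
        exact Dvd.dvd.mul_right (Int.dvd_of_emod_eq_zero h5) _
      have h8 : (3 : ℤ) ∣ γ := by
        rcases Int.prime_three.dvd_or_dvd h7 with h | h
        · exact h
        · omega
      have h9 : (3 : ℤ) ∣ a' := by
        rw [hc] at h8
        exact (Int.prime_three.dvd_or_dvd h8).resolve_right n1
      have h10 : (3 : ℤ) ∣ a := by
        have : (3 : ℤ) ∣ a * c' := by rw [← hc']; omega
        exact (Int.prime_three.dvd_or_dvd this).resolve_right n2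
      rw [if_pos ⟨by exact_mod_cast h10, by exact_mod_cast h9⟩, neg_ne_zero]
      apply chi3_ne
      push_cast
      intro h11
      have nm : ¬ (3 : ℤ) ∣ m := by omega
      rcases Int.prime_three.dvd_or_dvd h11 with h | h
      · have : (3 : ℤ) ∣ m * c := by
          rw [← e3]
          exact dvd_sub (dvd_neg.2 h) (Dvd.dvd.mul_right h10 _)
        rcases Int.prime_three.dvd_or_dvd this with h | h
        · exact nm h
        · exact n1 h
      · have : (3 : ℤ) ∣ m * c' := by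
          rw [← e4]
          exact dvd_sub h (Dvd.dvd.mul_right h9 _)
        rcases Int.prime_three.dvd_or_dvd this with h | h
        · exact nm h
        · exact n2 h
    · have n3 : ¬ (3 : ℤ) ∣ (a * a' : ℕ) := by
        push_cast
        rw [mul_comm, ← ha]
        omega
      rw [if_neg]
      · exact chi3_ne n3
      · rintro ⟨h, _⟩
        apply n3
        have : (3 : ℤ) ∣ a := by exact_mod_cast h
        push_cast
        exact Dvd.dvd.mul_right this _
  · unfold fw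
    simp only
    rw [e1, e2, e3, e4, Int.mul_ediv_cancel_left _ hm', Int.mul_ediv_cancel_left _ hm', ← hc, ← hc',
      ← hC, mul_comm (a : ℤ), ← ha]
    simp only [Prod.mk.injEq, and_true, true_and]
    ring

open Classical in
theorem G17_eq {m : ℕ} (g : Gm m) (x : ℤ) : G 17 x m = ∑ w ∈ Om m, if Cd m x w then
    ps3 w.2.1 w.2.2 ((3 * m - w.1) / w.2.1) (w.1 / w.2.2) else 0 := by
  have hm : (0 : ℤ) < m := by exact_mod_cast g.pos
  unfold G
  rw [dif_pos hm]
  symm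
  have key : ∀ w ∈ Om m, (if Cd m x w then
    ps3 w.2.1 w.2.2 ((3 * m - w.1) / w.2.1) (w.1 / w.2.2) else 0) ≠ 0 →
    ∃ X Y : ℕ, ∃ c c' : ℤ, Fc m x w.1 w.2.1 w.2.2 X Y c c' ∧
      fw m x w = ((w.2.1 : ℤ) * w.2.2, w.2.1 * c' + w.2.2 * c, c * c') ∧
      (if Cd m x w then ps3 w.2.1 w.2.2 ((3 * m - w.1) / w.2.1) (w.1 / w.2.2) else 0) =
      ps3 w.2.1 w.2.2 Y X ∧ ps3 w.2.1 w.2.2 Y X ≠ 0 := by
    intro w hw hne
    by_cases hC : Cd m x w
    · rw [if_pos hC] at hne
      obtain ⟨T, a, a'⟩ := w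
      obtain ⟨X, Y, c, c', f, hf⟩ := facts m g.pos x T a a' hw hC
      refine ⟨X, Y, c, c', f, hf, ?_, ?_⟩
      · rw [if_pos hC]
        simp only
        rw [f.hX, f.hY]
      · simp only at hne
        rw [f.hX, f.hY] at hne
        exact hne
    · rw [if_neg hC] at hne
      exact absurd rfl hne
  refine Finset.sum_bij_ne_zero (fun w _ _ => fw m x w) ?_ ?_ ?_ ?_
  · intro w hw hne
    obtain ⟨X, Y, c, c', f, hf, -, -⟩ := key w hw hne
    rw [hf]
    rw [Finset.mem_filter]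
    have := fwd_mem g f
    exact ⟨by simpa using this.1, this.2⟩
  · intro w hw hne w1 hw1 hne1 e
    obtain ⟨X, Y, c, c', f, hf, -, h0⟩ := key w hw hne
    obtain ⟨X1, Y1, c1, c1', f1, hf1, -, h01⟩ := key w1 hw1 hne1
    rw [hf, hf1] at e
    obtain ⟨k1, k2, k3⟩ := inj f h0 f1 h01 e
    obtain ⟨T, a, a'⟩ := w
    obtain ⟨T1, a1, a1'⟩ := w1
    simp only at k1 k2 k3
    subst k1 k2 k3
    rfl
  · intro q hq hne
    rw [Finset.mem_filter] at hq
    obtain ⟨h1, h2⟩ := hq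
    have h1' : q ∈ SS x m := by simpa using h1
    obtain ⟨w, hw, hC, hp, hf⟩ := surj g h1' h2 hne
    exact ⟨w, hw, by rw [if_pos hC]; exact hp, hf⟩
  · intro w hw hne
    obtain ⟨X, Y, c, c', f, hf, e, h0⟩ := key w hw hne
    rw [e, hf]
    exact fwd_val g f h0

theorem gm_aux (P : Finset ℕ) (hP : ∀ p ∈ P, Sp p ∨ Nr p) : pr P % 3 ≠ 0 ∧
    ((Even (inr P).card ∧ pr P % 8 = 1 ∧ (pr P % 7 = 1 ∨ pr P % 7 = 2 ∨ pr P % 7 = 4)) ∨
      (¬ Even (inr P).card ∧ pr P % 8 = 5 ∧ (pr P % 7 = 3 ∨ pr P % 7 = 5 ∨ pr P % 7 = 6))) := by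
  induction P using Finset.induction_on with
  | empty => exact ⟨by simp [pr], Or.inl ⟨by simp [inr], by simp [pr], by simp [pr]⟩⟩
  | insert p P hp ih =>
    obtain ⟨i0, i1⟩ := ih fun q hq => hP q (Finset.mem_insert_of_mem hq)
    have i2 := hP p (Finset.mem_insert_self _ _)
    have e : pr (insert p P) = p * pr P := by unfold pr; rw [Finset.prod_insert hp]
    have hpp : p.Prime := by rcases i2 with h | h <;> exact h.1
    have h8 : p % 8 = 1 ∨ p % 8 = 5 := by
      rcases i2 with h | h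
      · exact Or.inl h.2.1
      · exact Or.inr h.2.1
    have hp3 : p % 3 ≠ 0 := by
      intro h
      have h1 := (Nat.prime_dvd_prime_iff_eq Nat.prime_three hpp).1 (Nat.dvd_of_mod_eq_zero h)
      omega
    refine ⟨?_, ?_⟩
    · rw [e, Nat.mul_mod]
      rcases (by omega : p % 3 = 1 ∨ p % 3 = 2) with h | h <;>
        rcases (by omega : pr P % 3 = 1 ∨ pr P % 3 = 2) with h' | h' <;> rw [h, h'] <;> simp
    · rw [e]
      rcases i2 with ⟨-, a1, a2⟩ | ⟨-, a1, a2⟩
      · have hc : inr (insert p P) = inr P := by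
          unfold inr
          rw [Finset.filter_insert, if_neg (by omega)]
        rw [hc]
        rcases i1 with ⟨b0, b1, b2⟩ | ⟨b0, b1, b2⟩
        · refine Or.inl ⟨b0, by rw [Nat.mul_mod, a1, b1], ?_⟩
          rw [Nat.mul_mod]
          rcases a2 with h | h | h <;> rcases b2 with h' | h' | h' <;> rw [h, h'] <;> simp
        · refine Or.inr ⟨b0, by rw [Nat.mul_mod, a1, b1], ?_⟩
          rw [Nat.mul_mod]
          rcases a2 with h | h | h <;> rcases b2 with h' | h' | h' <;> rw [h, h'] <;> simp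
      · have hc : (inr (insert p P)).card = (inr P).card + 1 := by
          unfold inr
          rw [Finset.filter_insert, if_pos a1, Finset.card_insert_of_notMem]
          intro h
          exact hp (Finset.mem_filter.1 h).1
        rw [hc, Nat.even_add_one]
        rcases i1 with ⟨b0, b1, b2⟩ | ⟨b0, b1, b2⟩
        · refine Or.inr ⟨by simpa using b0, by rw [Nat.mul_mod, a1, b1], ?_⟩
          rw [Nat.mul_mod]
          rcases a2 with h | h | h <;> rcases b2 with h' | h' | h' <;> rw [h, h'] <;> simp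
        · refine Or.inl ⟨b0, by rw [Nat.mul_mod, a1, b1], ?_⟩
          rw [Nat.mul_mod]
          rcases a2 with h | h | h <;> rcases b2 with h' | h' | h' <;> rw [h, h'] <;> simp

theorem gm_pr (P : Finset ℕ) (hP : Gd P) : Gm (pr P) := by
  obtain ⟨h1, h2⟩ := gm_aux P hP.1
  rcases h2 with ⟨-, h3, h4⟩ | ⟨h3, -⟩
  · exact ⟨h3, h1, h4⟩
  · exact absurd hP.2 h3

theorem one_lt_pr (P : Finset ℕ) (hP : Gd P) (hne : P.Nonempty) : 1 < pr P := by
  obtain ⟨p, hp⟩ := hne
  have h1 : p ∣ pr P := Finset.dvd_prod_of_mem _ hp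
  have h2 : 1 < p := by rcases hP.1 p hp with h | h <;> exact h.1.one_lt
  exact lt_of_lt_of_le h2 (Nat.le_of_dvd (gm_pr P hP).pos h1)

theorem jac_neg {m : ℕ} (h4 : m % 4 = 1) (x : ℤ) : jacobiSym (-x) m = jacobiSym x m := by
  rw [jacobiSym.neg x (Nat.odd_iff.2 (by omega)), ZMod.χ₄_nat_one_mod_four h4, one_mul]

/-- C1A -/
theorem t_C1A : Pool.Agent.Z701.S_C1A := by
  classical
  intro P hP hne
  have g := gm_pr P hP
  have h1 := one_lt_pr P hP hne
  obtain ⟨m, hm⟩ : ∃ m, m = pr P := ⟨_, rfl⟩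
  rw [← hm] at g h1 ⊢
  have h24 := g.h8
  have hm0 : (0 : ℤ) < m := by exact_mod_cast g.pos
  have flip : ∑ u ∈ un m, jacobiSym u m * G 11 u m = ∑ u ∈ un m, jacobiSym u m * G 17 u m := by
    refine Finset.sum_nbij' (fun u => m - u) (fun u => m - u) ?_ ?_ ?_ ?_ ?_
    · intro u hu
      unfold un at hu ⊢
      rw [Finset.mem_filter, Finset.mem_range] at hu ⊢
      have hu0 : u ≠ 0 := by
        rintro rfl
        have := hu.2
        rw [Nat.coprime_zero_left] at this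
        omega
      refine ⟨by omega, ?_⟩
      rw [Nat.coprime_comm, Nat.coprime_self_sub_right hu.1.le, Nat.coprime_comm]
      exact hu.2
    · intro u hu
      unfold un at hu ⊢
      rw [Finset.mem_filter, Finset.mem_range] at hu ⊢
      have hu0 : u ≠ 0 := by
        rintro rfl
        have := hu.2
        rw [Nat.coprime_zero_left] at this
        omega
      refine ⟨by omega, ?_⟩
      rw [Nat.coprime_comm, Nat.coprime_self_sub_right hu.1.le, Nat.coprime_comm]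
      exact hu.2
    · intro u hu
      unfold un at hu
      rw [Finset.mem_filter, Finset.mem_range] at hu
      omega
    · intro u hu
      unfold un at hu
      rw [Finset.mem_filter, Finset.mem_range] at hu
      omega
    · intro u hu
      unfold un at hu
      rw [Finset.mem_filter, Finset.mem_range] at hu
      rw [G_flip _ _ hm0]
      have e1 : ((m - u : ℕ) : ℤ) = (m : ℤ) - u := by
        rw [Nat.cast_sub hu.1.le]
      rw [e1]
      congr 1
      have e2 : jacobiSym ((m : ℤ) - u) m = jacobiSym (-u) m := by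
        apply jacobiSym.mod_left'
        rw [show (m : ℤ) - u = -u + m by ring]
        exact Int.add_emod_right _ _
      rw [e2, jac_neg (by omega)]
  have lhs : ∑ u ∈ un m, jacobiSym u m * Fp u m = -2 * ∑ u ∈ un m, jacobiSym u m * G 17 u m := by
    have : ∀ u ∈ un m, jacobiSym u m * Fp u m =
        -(jacobiSym u m * G 11 u m + jacobiSym u m * G 17 u m) := by
      intro u _
      rw [Fp_eq _ _ hm0]
      ring
    rw [Finset.sum_congr rfl this, Finset.sum_neg_distrib, Finset.sum_add_distrib, flip]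
    ring
  rw [lhs]
  congr 1
  have rhs1 : ∀ u ∈ un m, jacobiSym u m * G 17 u m = ∑ w ∈ Om m, (if Cd m u w then
      ps3 w.2.1 w.2.2 ((3 * m - w.1) / w.2.1) (w.1 / w.2.2) * jacobiSym u m else 0) := by
    intro u _
    rw [G17_eq g, Finset.mul_sum]
    refine Finset.sum_congr rfl fun w _ => ?_
    split_ifs
    · ring
    · ring
  rw [Finset.sum_congr rfl rhs1, Finset.sum_comm]
  unfold Om
  rw [Finset.sum_sigma]
  refine Finset.sum_congr rfl fun T _ => ?_
  rw [Finset.sum_product]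
  refine Finset.sum_congr rfl fun a _ => ?_
  refine Finset.sum_congr rfl fun a' _ => ?_
  rw [Finset.mul_sum, Finset.sum_filter]
  refine Finset.sum_congr rfl fun u _ => ?_
  unfold Cd
  simp only

end Pool.Agent.Z270.C1A

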