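import Pool.Agent.Z700.Defs3
import Pool.Agent.Z419.Gen

/-!
# Z701 GEN: the sum over all admissible factorizations
-/

set_option autoImplicit false

namespace Pool.Agent.Z270.Gen

open Finset Matrix Pool.Agent.Z700 Pool.Agent.Z701
open Pool.Agent.Z419.Gen (odd_sum fac2 fac7 od_eq split14 not_dvd_sq)

/-! ### the family -/

lemma spl_sp {P : Finset ℕ} (hP : ∀ p ∈ P, Sp p ∨ Nr p) {p : ℕ} (hp : p ∈ spl P) : Sp p := by
  obtain ⟨h1, h2⟩ := Finset.mem_filter.1 hp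
  rcases hP p h1 with h | h
  · exact h
  · have := h.2.1
    omega

lemma inr_nr {P : Finset ℕ} (hP : ∀ p ∈ P, Sp p ∨ Nr p) {p : ℕ} (hp : p ∈ inr P) : Nr p := by
  obtain ⟨h1, h2⟩ := Finset.mem_filter.1 hp
  rcases hP p h1 with h | h
  · have := h.2.1
    omega
  · exact h

lemma pr_pos {D : Finset ℕ} (hD : ∀ p ∈ D, Sp p ∨ Nr p) : 0 < pr D := by
  unfold pr
  refine Finset.prod_pos fun p hp => ?_
  rcases hD p hp with h | h <;> exact h.1.pos

lemma j2 {p : ℕ} (hp : Sp p) : jacobiSym 2 p = 1 := by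
  have h2 : p % 8 = 1 := hp.2.1
  have h1 : Odd p := by
    rw [Nat.odd_iff]
    omega
  rw [jacobiSym.at_two h1, ZMod.χ₈_nat_eq_if_mod_eight]
  rw [if_neg (by omega), if_pos (Or.inl h2)]

lemma j7 {p : ℕ} (hp : Sp p) : jacobiSym 7 p = 1 := by
  have h1 : p % 4 = 1 := by
    have := hp.2.1
    omega
  have h2 := jacobiSym.quadratic_reciprocity_one_mod_four h1 (show Odd 7 by decide)
  have h3 : ((7 : ℕ) : ℤ) = 7 := rfl
  rw [h3] at h2
  rw [← h2, jacobiSym.mod_left]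
  rcases hp.2.2 with h | h | h
  · have : ((p : ℤ) % ((7 : ℕ) : ℤ)) = 1 := by push_cast; omega
    rw [this]
    norm_num
  · have : ((p : ℤ) % ((7 : ℕ) : ℤ)) = 2 := by push_cast; omega
    rw [this]
    norm_num
  · have : ((p : ℤ) % ((7 : ℕ) : ℤ)) = 4 := by push_cast; omega
    rw [this]
    norm_num

lemma n2 {p : ℕ} (hp : Nr p) : jacobiSym 2 p = -1 := by
  have h2 : p % 8 = 5 := hp.2.1
  have h1 : Odd p := by
    rw [Nat.odd_iff]
    omega
  rw [jacobiSym.at_two h1, ZMod.χ₈_nat_eq_if_mod_eight]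
  rw [if_neg (by omega), if_neg (by omega)]

lemma n7 {p : ℕ} (hp : Nr p) : jacobiSym 7 p = -1 := by
  have h1 : p % 4 = 1 := by
    have := hp.2.1
    omega
  have h2 := jacobiSym.quadratic_reciprocity_one_mod_four h1 (show Odd 7 by decide)
  have h3 : ((7 : ℕ) : ℤ) = 7 := rfl
  rw [h3] at h2
  rw [← h2, jacobiSym.mod_left]
  rcases hp.2.2 with h | h | h
  · have : ((p : ℤ) % ((7 : ℕ) : ℤ)) = 3 := by push_cast; omega
    rw [this]
    norm_num
  · have : ((p : ℤ) % ((7 : ℕ) : ℤ)) = 5 := by push_cast; omega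
    rw [this]
    norm_num
  · have : ((p : ℤ) % ((7 : ℕ) : ℤ)) = 6 := by push_cast; omega
    rw [this]
    norm_num

lemma jac_eq {p : ℕ} (hp : Sp p) (i j y : ℕ) :
    jacobiSym ((2 ^ i * 7 ^ j * y : ℕ) : ℤ) p = jacobiSym y p := by
  push_cast
  rw [jacobiSym.mul_left, jacobiSym.mul_left, jacobiSym.pow_left, jacobiSym.pow_left, j2 hp, j7 hp]
  simp

lemma jac_eqN {p : ℕ} (hp : Nr p) (i j y : ℕ) :
    jacobiSym ((2 ^ i * 7 ^ j * y : ℕ) : ℤ) p = (-1) ^ i * (-1) ^ j * jacobiSym y p := by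
  push_cast
  rw [jacobiSym.mul_left, jacobiSym.mul_left, jacobiSym.pow_left, jacobiSym.pow_left, n2 hp, n7 hp]

/-- the conditions on the square root -/
def Cy (P : Finset ℕ) (y : ℕ) : Prop :=
  (∀ p ∈ spl P, jacobiSym y p = 1) ∧ ∀ q ∈ inr P, ∀ q' ∈ inr P, jacobiSym y q = jacobiSym y q'

lemma cy_eq {P : Finset ℕ} (hP : ∀ p ∈ P, Sp p ∨ Nr p) (i j y : ℕ) :
    Cy P (2 ^ i * 7 ^ j * y) ↔ Cy P y := by
  unfold Cy
  constructor
  · rintro ⟨h1, h2⟩
    refine ⟨fun p hp => ?_, fun q hq q' hq' => ?_⟩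
    · rw [← jac_eq (spl_sp hP hp) i j y]
      exact h1 p hp
    · have h3 := h2 q hq q' hq'
      rw [jac_eqN (inr_nr hP hq), jac_eqN (inr_nr hP hq')] at h3
      exact mul_left_cancel₀ (mul_ne_zero (pow_ne_zero _ (by norm_num)) (pow_ne_zero _ (by norm_num)))
        h3
  · rintro ⟨h1, h2⟩
    refine ⟨fun p hp => ?_, fun q hq q' hq' => ?_⟩
    · rw [jac_eq (spl_sp hP hp) i j y]
      exact h1 p hp
    · rw [jac_eqN (inr_nr hP hq), jac_eqN (inr_nr hP hq'), h2 q hq q' hq']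

/-- squares up to fourteen -/
lemma sq14 {P : Finset ℕ} (hP : ∀ p ∈ P, Sp p ∨ Nr p) {D : ℕ} (hD : 0 < D) :
    (∃ y : ℕ, D = 14 * y ^ 2 ∧ Cy P y) ↔
      (Odd (D.factorization 2) ∧ Odd (D.factorization 7) ∧
        ∃ y : ℕ, od D = y ^ 2 ∧ Cy P y) := by
  constructor
  · rintro ⟨y, hy, hj⟩
    have hy0 : y ≠ 0 := by rintro rfl; simp at hy; omega
    obtain ⟨i, j, z, h2, h7, rfl⟩ := split14 hy0
    have e : D = 2 ^ (2 * i + 1) * 7 ^ (2 * j + 1) * z ^ 2 := by rw [hy]; ring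
    rw [e, fac2 (not_dvd_sq Nat.prime_two h2), fac7 (not_dvd_sq (by norm_num) h7),
      od_eq (not_dvd_sq Nat.prime_two h2) (not_dvd_sq (by norm_num) h7)]
    exact ⟨⟨i, rfl⟩, ⟨j, rfl⟩, z, rfl, (cy_eq hP i j z).1 hj⟩
  · rintro ⟨⟨i, hi⟩, ⟨j, hj⟩, y, hy, hjac⟩
    obtain ⟨a, c, z, h2, h7, hDe⟩ := split14 hD.ne'
    rw [hDe, fac2 h2] at hi
    rw [hDe, fac7 h7] at hj
    rw [hDe, od_eq h2 h7] at hy
    refine ⟨2 ^ i * 7 ^ j * y, ?_, (cy_eq hP i j y).2 hjac⟩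
    rw [hDe, hi, hj, hy]
    ring

lemma mem_FixS {P : Finset ℕ} {b : ℤ} : b ∈ Pool.Agent.Z701.FixS P ↔
    b ∈ Ioo (-(9 * (pr P : ℤ))) (9 * (pr P : ℤ)) ∧
    (b % 4 = 1 ∧ (b : ZMod 7) = -(2 * Pool.Agent.Z701.be P) ∧ ¬ (3 : ℤ) ∣ b ∧
    ∃ y ∈ range (9 * pr P), 9 * (pr P : ℤ) = b ^ 2 + 14 * (y : ℤ) ^ 2 ∧ Cy P y) := by
  unfold Pool.Agent.Z701.FixS Cy
  simp only [Finset.mem_filter]

lemma card_inr {P D : Finset ℕ} (hD : D ⊆ P) :
    (inr D).card + (inr (P \ D)).card = (inr P).card := by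
  unfold inr
  rw [Finset.card_filter, Finset.card_filter, Finset.card_filter, add_comm]
  exact Finset.sum_sdiff hD

theorem t_GEN (h : Pool.Agent.Z701.S_GENb) : Pool.Agent.Z701.S_GEN := by
  intro P hPG hne
  classical
  have hP := hPG.1
  have hPe := hPG.2
  set m : ℕ := pr P with hm
  have hmpos : 0 < pr P := pr_pos hP
  let Db : ℤ → ℕ := fun b => (9 * (m : ℤ) - b ^ 2).toNat
  let I : Finset ℤ := (Ioo (-(9 * (m : ℤ))) (9 * (m : ℤ))).filter fun b : ℤ =>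
    b % 4 = 1 ∧ (b : ZMod 7) = -(2 * Pool.Agent.Z701.be P) ∧ 0 < Db b
  have hRR : ∀ D1 ∈ adm P, Pool.Agent.Z701.RR D1 (P \ D1) =
      ∑ b ∈ I, Pool.Agent.Z701.wt (pr D1) (pr (P \ D1)) b * Pool.Agent.Z701.loc (3 * pr D1) (Db b) := by
    intro D1 hD1
    obtain ⟨hD1, hD1e⟩ := Finset.mem_filter.1 hD1
    rw [Finset.mem_powerset] at hD1
    have e1 : pr D1 * pr (P \ D1) = m := by
      rw [hm]
      unfold pr
      rw [mul_comm]
      exact Finset.prod_sdiff hD1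
    have e2 : Pool.Agent.Z701.be D1 * Pool.Agent.Z701.be (P \ D1) =
        2 * Pool.Agent.Z701.be P := by
      unfold Pool.Agent.Z701.be
      have h1 := Finset.prod_sdiff hD1 (f := Pool.Agent.Z701.sq7)
      have h2 := card_inr hD1
      have h3 : (inr D1).card / 2 + (inr (P \ D1)).card / 2 = (inr P).card / 2 := by
        obtain ⟨a, ha⟩ := hD1e
        obtain ⟨c, hc⟩ := hPe
        omega
      rw [← h1, ← h3, pow_add]
      ring
    have e3 : (9 * (pr D1 : ℤ) * (pr (P \ D1) : ℤ)) = 9 * (m : ℤ) := by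
      rw [← e1]
      push_cast
      ring
    unfold Pool.Agent.Z701.RR Pool.Agent.Z701.dis
    rw [e2, e3]
  rw [Finset.sum_congr rfl hRR, Finset.sum_comm]
  have key : ∀ b ∈ I, ∃ n : ℤ, ∑ D1 ∈ adm P, Pool.Agent.Z701.wt (pr D1) (pr (P \ D1)) b *
        Pool.Agent.Z701.loc (3 * pr D1) (Db b) = 2 ^ ex P * n ∧
      (Odd n ↔ b ∈ Pool.Agent.Z701.FixS P) := by
    intro b hb
    obtain ⟨hb0, hb4, hb7, hbD⟩ := Finset.mem_filter.1 hb
    have hDz : ((Db b : ℕ) : ℤ) = 9 * (pr P : ℤ) - b ^ 2 := by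
      have h1 : 0 < (9 * (m : ℤ) - b ^ 2) := by
        have : 0 < (9 * (m : ℤ) - b ^ 2).toNat := hbD
        omega
      show (((9 * (m : ℤ) - b ^ 2).toNat : ℕ) : ℤ) = _
      rw [Int.toNat_of_nonneg h1.le]
    have hfix : b ∈ Pool.Agent.Z701.FixS P ↔
        (¬ (3 : ℤ) ∣ b ∧ ∃ y : ℕ, Db b = 14 * y ^ 2 ∧ Cy P y) := by
      rw [mem_FixS]
      constructor
      · rintro ⟨_, _, _, h3, y, _, hy, hj⟩
        refine ⟨h3, y, ?_, hj⟩
        have : ((Db b : ℕ) : ℤ) = ((14 * y ^ 2 : ℕ) : ℤ) := by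
          rw [hDz, hy]
          push_cast
          ring
        exact_mod_cast this
      · rintro ⟨h3, y, hy, hj⟩
        refine ⟨hb0, hb4, hb7, h3, y, ?_, ?_, hj⟩
        · rw [Finset.mem_range]
          have h1 : ((14 * y ^ 2 : ℕ) : ℤ) = 9 * (pr P : ℤ) - b ^ 2 := by rw [← hy, hDz]
          have h2 : 14 * y ^ 2 ≤ 9 * pr P := by
            have : ((14 * y ^ 2 : ℕ) : ℤ) ≤ ((9 * pr P : ℕ) : ℤ) := by
              rw [h1]
              push_cast
              nlinarith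
            exact_mod_cast this
          nlinarith
        · have h1 : ((14 * y ^ 2 : ℕ) : ℤ) = 9 * (pr P : ℤ) - b ^ 2 := by rw [← hy, hDz]
          push_cast at h1
          linarith
    rw [hfix, sq14 hP hbD]
    by_cases h2 : Odd ((Db b).factorization 2)
    · obtain ⟨n, hn, hodd⟩ := h P hPG hne b (by rw [Int.odd_iff]; omega) (Db b) hbD hDz h2
      refine ⟨((Db b).factorization 7 : ℤ) * n, ?_, ?_⟩
      · have e1 : ∀ D1 ∈ adm P, Pool.Agent.Z701.wt (pr D1) (pr (P \ D1)) b *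
              Pool.Agent.Z701.loc (3 * pr D1) (Db b) =
            ((Db b).factorization 7 : ℤ) * (Pool.Agent.Z701.wt (pr D1) (pr (P \ D1)) b *
              ∏ l ∈ ((Db b).primeFactors.erase 2).erase 7, fac (3 * pr D1) (Db b) l) := by
          intro D1 _
          unfold Pool.Agent.Z701.loc Pool.Agent.Z700.loc
          rw [if_pos h2]
          ring
        rw [Finset.sum_congr rfl e1, ← Finset.mul_sum, hn]
        ring
      · rw [Int.odd_mul]
        have e2 : Odd (((Db b).factorization 7 : ℕ) : ℤ) ↔ Odd ((Db b).factorization 7) :=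
          Int.odd_coe_nat _
        rw [e2]
        constructor
        · rintro ⟨h7, hn1⟩
          obtain ⟨k1, y, k2, k3⟩ := (hodd h7).1 hn1
          exact ⟨k1, h2, h7, y, k2, k3⟩
        · rintro ⟨k1, -, h7, y, k2, k3⟩
          exact ⟨h7, (hodd h7).2 ⟨k1, y, k2, k3⟩⟩
    · refine ⟨0, ?_, ?_⟩
      · have e1 : ∀ D1 ∈ adm P, Pool.Agent.Z701.wt (pr D1) (pr (P \ D1)) b *
            Pool.Agent.Z701.loc (3 * pr D1) (Db b) = 0 := by
          intro D1 _
          unfold Pool.Agent.Z701.loc Pool.Agent.Z700.loc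
          rw [if_neg h2, mul_zero]
        rw [Finset.sum_congr rfl e1]
        simp
      · constructor
        · intro h0
          simp at h0
        · rintro ⟨_, h3, _⟩
          exact absurd h3 h2
  choose! nb hnb1 hnb2 using key
  refine ⟨∑ b ∈ I, nb b, ?_, ?_⟩
  · rw [Finset.sum_congr rfl hnb1, Finset.mul_sum]
  · rw [odd_sum I nb (fun b => b ∈ Pool.Agent.Z701.FixS P) hnb2]
    have e1 : I.filter (fun b => b ∈ Pool.Agent.Z701.FixS P) = Pool.Agent.Z701.FixS P := by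
      ext b
      rw [Finset.mem_filter]
      constructor
      · exact fun h => h.2
      · intro hb
        refine ⟨?_, hb⟩
        obtain ⟨hb0, hb4, hb7, h3, y, _, hy, _⟩ := mem_FixS.1 hb
        refine Finset.mem_filter.2 ⟨hb0, hb4, hb7, ?_⟩
        show 0 < (9 * (m : ℤ) - b ^ 2).toNat
        rw [hm, hy]
        have hy0 : (y : ℤ) ≠ 0 := by
          intro h0
          rw [h0] at hy
          -- `b² = 9 m` would make `b` divisible by three
          apply h3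
          have h4 : (3 : ℤ) ∣ b ^ 2 := ⟨3 * (pr P : ℤ), by linarith⟩
          exact Int.prime_three.dvd_of_dvd_pow h4
        have : 0 < 14 * (y : ℤ) ^ 2 := by positivity
        omega
    rw [e1]

end Pool.Agent.Z270.Gen
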